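import Mathlib

/-!
# A smallest girth-4 graph with half the degrees 2 and half 3 that has adjacent degree-2 vertices

Subdividing both edges of a perfect matching of `K_4` twice gives a graph with eight vertices.
-/

set_option autoImplicit false

namespace Pool.Agent.Results.MP_6c91b3_co.GirthFour

open SimpleGraph Finset

/-- the class `D₂₃`: exactly half of the vertices have degree two and exactly half have degree
three -/
def InD23 {n : ℕ} (G : SimpleGraph (Fin n)) : Prop :=
  2 * {v | (G.neighborSet v).ncard = 2}.ncard = n ∧ 2 * {v | (G.neighborSet v).ncard = 3}.ncard = n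

/-- `n(D₂₃, g)`: the smallest number of vertices of a graph in the class whose girth is `g` -/
noncomputable def minOrder (g : ℕ) : ℕ :=
  sInf {n | ∃ G : SimpleGraph (Fin n), InD23 G ∧ G.egirth = g}

/-- `G` is extremal for `g` -/
def Extremal {n : ℕ} (g : ℕ) (G : SimpleGraph (Fin n)) : Prop :=
  InD23 G ∧ G.egirth = g ∧ n = minOrder g

/-- adjacency table of the example: `K_4` on `0,1,2,3`, the edge `01` replaced by the path
`0 4 5 1` and the edge `23` replaced by the path `2 6 7 3` -/
def edges : List (Fin 8 × Fin 8) :=
  [(0, 2), (0, 3), (1, 2), (1, 3), (0, 4), (4, 5), (5, 1), (2, 6), (6, 7), (7, 3)]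

/-- the example -/
def ex : SimpleGraph (Fin 8) where
  Adj a b := (a, b) ∈ edges ∨ (b, a) ∈ edges
  symm := ⟨fun _ _ h => h.symm⟩
  loopless := ⟨by decide⟩

instance : DecidableRel ex.Adj := fun a b => by unfold ex; infer_instance

theorem ncard_nbr (v : Fin 8) : (ex.neighborSet v).ncard = (univ.filter fun w => ex.Adj v w).card := by
  rw [← Set.ncard_coe_finset]
  congr 1
  ext w
  simp

theorem ex_D23 : InD23 ex := by
  constructor
  · have : {v | (ex.neighborSet v).ncard = 2} =
        ((univ.filter fun v => (univ.filter fun w => ex.Adj v w).card = 2 : Finset (Fin 8)) :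
          Set (Fin 8)) := by
      ext v
      simp [ncard_nbr]
    rw [this, Set.ncard_coe_finset]
    decide
  · have : {v | (ex.neighborSet v).ncard = 3} =
        ((univ.filter fun v => (univ.filter fun w => ex.Adj v w).card = 3 : Finset (Fin 8)) :
          Set (Fin 8)) := by
      ext v
      simp [ncard_nbr]
    rw [this, Set.ncard_coe_finset]
    decide

/-- without triangles the girth is at least four -/
theorem four_le_egirth {V : Type} {G : SimpleGraph V}
    (h : ∀ a b c, G.Adj a b → G.Adj b c → ¬ G.Adj a c) : 4 ≤ G.egirth := by
  classical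
  rw [le_egirth]
  intro a w hw
  have h3 := hw.three_le_length
  have hne : w.length ≠ 3 := by
    intro h3
    have hex : ∃ (u : V) (w : G.Walk u u), w.IsCycle ∧ w.length = 3 := ⟨a, w, hw, h3⟩
    rw [← is3Clique_iff_exists_cycle_length_three] at hex
    obtain ⟨s, hs⟩ := hex
    rw [is3Clique_iff] at hs
    obtain ⟨x, y, z, h1, h2, h3, -⟩ := hs
    exact h x y z h1 h3 h2
  have : 4 ≤ w.length := by omega
  exact_mod_cast this

theorem ex_girth : ex.egirth = 4 := by
  apply le_antisymm
  · have h02 : ex.Adj 0 2 := by decide
    have h21 : ex.Adj 2 1 := by decide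
    have h13 : ex.Adj 1 3 := by decide
    have h30 : ex.Adj 3 0 := by decide
    have hc : (Walk.cons h02 (Walk.cons h21 (Walk.cons h13 (Walk.cons h30 Walk.nil)))).IsCycle := by
      rw [Walk.cons_isCycle_iff]
      constructor
      · simp [Walk.cons_isPath_iff]
      · simp
    have := egirth_le_length hc
    simpa using this
  · apply four_le_egirth
    decide

/-- every graph in the class with girth 4 has at least eight vertices -/
theorem eight_le {n : ℕ} {G : SimpleGraph (Fin n)} (hG : InD23 G) (hg : G.egirth = 4) : 8 ≤ n := by
  classical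
  obtain ⟨h2, h3⟩ := hG
  have e2 : {v | (G.neighborSet v).ncard = 2}.ncard = (univ.filter fun v => G.degree v = 2).card := by
    rw [← Set.ncard_coe_finset]
    congr 1
    ext v
    simp [Set.ncard_eq_toFinset_card', degree, neighborFinset]
  have e3 : {v | (G.neighborSet v).ncard = 3}.ncard = (univ.filter fun v => G.degree v = 3).card := by
    rw [← Set.ncard_coe_finset]
    congr 1
    ext v
    simp [Set.ncard_eq_toFinset_card', degree, neighborFinset]
  rw [e2] at h2
  rw [e3] at h3
  -- handshake
  have hunion : (univ.filter fun v => G.degree v = 2) ∪ (univ.filter fun v => G.degree v = 3) =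
      univ := by
    apply eq_of_subset_of_card_le (subset_univ _)
    rw [card_union_of_disjoint, card_univ, Fintype.card_fin]
    · omega
    · rw [Finset.disjoint_left]
      intro v hv hv'
      simp only [mem_filter, mem_univ, true_and] at hv hv'
      omega
  have hsum : ∑ v, G.degree v = 2 * (univ.filter fun v => G.degree v = 2).card +
      3 * (univ.filter fun v => G.degree v = 3).card := by
    rw [← hunion, sum_union]
    · have h1 : ∑ v ∈ univ.filter (fun v => G.degree v = 2), G.degree v =
          ∑ v ∈ univ.filter (fun v => G.degree v = 2), 2 :=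
        sum_congr rfl (fun v hv => (mem_filter.1 hv).2)
      have h2 : ∑ v ∈ univ.filter (fun v => G.degree v = 3), G.degree v =
          ∑ v ∈ univ.filter (fun v => G.degree v = 3), 3 :=
        sum_congr rfl (fun v hv => (mem_filter.1 hv).2)
      rw [h1, h2, hunion, sum_const, sum_const, smul_eq_mul, smul_eq_mul]
      ring
    · rw [Finset.disjoint_left]
      intro v hv hv'
      simp only [mem_filter, mem_univ, true_and] at hv hv'
      omega
  have hhand := G.sum_degrees_eq_twice_card_edges
  by_contra hcon
  push Not at hcon
  have hn : n = 0 ∨ n = 4 := by omega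
  rcases hn with rfl | rfl
  · have : G.IsAcyclic := by
      intro v
      exact v.elim0
    rw [this.egirth_eq_top] at hg
    exact absurd hg (by decide)
  · have hc : (univ.filter fun v => G.degree v = 3).card = 2 := by omega
    rw [card_eq_two] at hc
    obtain ⟨x, y, hxy, hc⟩ := hc
    have hx : G.degree x = 3 := by
      have : x ∈ univ.filter fun v => G.degree v = 3 := by rw [hc]; simp
      exact (mem_filter.1 this).2
    have hy : G.degree y = 3 := by
      have : y ∈ univ.filter fun v => G.degree v = 3 := by rw [hc]; simp
      exact (mem_filter.1 this).2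
    have hall : ∀ u : Fin 4, G.degree u = 3 → ∀ v, v ≠ u → G.Adj u v := by
      intro u hu v hv
      have h1 : G.neighborFinset u = univ.erase u := by
        apply eq_of_subset_of_card_le
        · intro w hw
          rw [mem_neighborFinset] at hw
          simp [hw.ne']
        · rw [card_erase_of_mem (mem_univ _), card_neighborFinset_eq_degree, hu]
          simp
      have : v ∈ G.neighborFinset u := by rw [h1]; simp [hv]
      exact (mem_neighborFinset _ _ _).1 this
    obtain ⟨z, hz⟩ : ∃ z : Fin 4, z ∉ ({x, y} : Finset (Fin 4)) := by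
      by_contra h
      push Not at h
      have : (univ : Finset (Fin 4)) ⊆ {x, y} := fun z _ => h z
      have := card_le_card this
      have h2 : ({x, y} : Finset (Fin 4)).card ≤ 2 := card_le_two
      simp at this
      omega
    simp only [mem_insert, mem_singleton, not_or] at hz
    have a1 := hall x hx y hxy.symm
    have a2 := hall x hx z hz.1
    have a3 := hall y hy z hz.2
    have hc : (Walk.cons a1 (Walk.cons a3 (Walk.cons a2.symm Walk.nil))).IsCycle := by
      rw [Walk.cons_isCycle_iff]
      constructor
      · simp [Walk.cons_isPath_iff, hz.1, hxy.symm, Ne.symm hz.2, a3.ne, a2.ne']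
      · simp [hxy, hxy.symm, Ne.symm hz.1, Ne.symm hz.2, a2.ne, a2.ne', a3.ne]
    have := egirth_le_length hc
    rw [hg] at this
    simp only [Walk.length_cons, Walk.length_nil] at this
    exact absurd this (by decide)

/-- **There is a graph extremal for girth 4 in which two vertices of degree two are adjacent.** -/
theorem result : ∃ g, 3 ≤ g ∧ ∃ (n : ℕ) (G : SimpleGraph (Fin n)), Extremal g G ∧
    ∃ u v, G.Adj u v ∧ (G.neighborSet u).ncard = 2 ∧ (G.neighborSet v).ncard = 2 := by
  refine ⟨4, by norm_num, 8, ex, ⟨ex_D23, ex_girth, ?_⟩, 4, 5, by decide, ?_, ?_⟩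
  · unfold minOrder
    apply le_antisymm
    · apply le_csInf
      · exact ⟨8, ex, ex_D23, ex_girth⟩
      · rintro n ⟨G, hG, hg⟩
        exact eight_le hG hg
    · exact Nat.sInf_le ⟨ex, ex_D23, ex_girth⟩
  · rw [ncard_nbr]; decide
  · rw [ncard_nbr]; decide

end Pool.Agent.Results.MP_6c91b3_co.GirthFour
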